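import Pool.Agent.R536.UD.RedPoly
import Pool.Agent.R536.UD.Bip
import Pool.Agent.R536.UD.Mem
import Pool.Agent.R536.UD.TreePoly

/-!
# The complexity of the up-color domination weight on trees, bipartite graphs, interval graphs

For trees the up-color domination weight is computed in polynomial time; for bipartite graphs and
for interval graphs the decision problem is `NP`-complete.
-/

set_option autoImplicit false

namespace Pool.Agent.Results.MP_07a0c6_lc.UpColorDomination

open Pool.Agent.NPC Pool.Agent.NPC.R536CS Pool.Agent.NPC.R536UD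

/-- The code of a graph with vertices `0, …, n - 1` has polynomial length in `n`. -/
theorem code_length : ∃ p : Polynomial ℕ, ∀ (n : ℕ) (E : List (ℕ × ℕ)), E.Nodup →
    (∀ e ∈ E, e.1 < n ∧ e.2 < n) → (bits ((List.range n, E) : Gr)).length ≤ p.eval n := by
  refine ⟨(Polynomial.X * (4 * Polynomial.X + 1 + 1) + 1) +
    (Polynomial.X * Polynomial.X * (8 * Polynomial.X + 3 + 1) + 1) + 1, fun n E hE h => ?_⟩
  rw [bits_length, sz_pair]
  have h1 : sz (List.range n) ≤ n * (4 * n + 1 + 1) + 1 := by
    refine (sz_le_length_mul (List.range n) (4 * n + 1) fun x hx => ?_).trans (by simp)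
    have a1 := sz_small x
    have a2 := List.mem_range.1 hx
    omega
  have h2 : E.length ≤ n * n := by
    have := (Finset.card_le_card (s := E.toFinset) (t := Finset.range n ×ˢ Finset.range n)
      (fun e he => by
        have := h e (List.mem_toFinset.1 he)
        simp only [Finset.mem_product, Finset.mem_range]
        exact this))
    rwa [List.toFinset_card_of_nodup hE, Finset.card_product, Finset.card_range] at this
  have h3 : sz E ≤ n * n * (8 * n + 3 + 1) + 1 := by
    refine (sz_le_length_mul E (8 * n + 3) fun e he => ?_).trans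
      (Nat.succ_le_succ (Nat.mul_le_mul_right _ h2))
    have a0 := h e he
    obtain ⟨x, y⟩ := e
    rw [sz_pair]
    have a1 := sz_small x
    have a2 := sz_small y
    simp only at a0
    omega
  simp only [Polynomial.eval_add, Polynomial.eval_mul, Polynomial.eval_X, Polynomial.eval_one,
    Polynomial.eval_ofNat]
  omega

/-- For trees the up-color domination weight is computed by an algorithm that runs in time
polynomial in the length of the code of the tree, which is polynomial in the number of its vertices;
for bipartite graphs and for interval graphs `UCW` is `NP`-complete. -/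
theorem result :
    ((∃ F : List Bool → List Bool, PolyTime F ∧ ∀ G : Gr, (graph G).IsTree →
      ∃ w : ℕ, OmegaUC (graph G) = (w : ℕ∞) ∧ F (bits G) = bits w) ∧
      ∃ p : Polynomial ℕ, ∀ (n : ℕ) (E : List (ℕ × ℕ)), E.Nodup →
        (∀ e ∈ E, e.1 < n ∧ e.2 < n) → (bits ((List.range n, E) : Gr)).length ≤ p.eval n) ∧
    (InNPP (UCW (fun G => G.IsBipartite)) ∧ NPHardP (UCW (fun G => G.IsBipartite))) ∧
    (InNPP (UCW IsIntervalGraph) ∧ NPHardP (UCW IsIntervalGraph)) := by
  refine ⟨⟨⟨_, polyTime_opt (Poly.optMap (o := unbits Gr) (f := fun _ G => Tree.alg G) poly_unbits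
    (Tree.alg_poly.comp (Poly.snd Poly.id))), fun G hG => ⟨Tree.alg G, Tree.omega_eq hG.2, ?_⟩⟩,
    code_length⟩, ⟨np_bip, Bip.hard_bip⟩, np_interval, hard_interval⟩
  simp only [unbits_bits, Option.map_some]

end Pool.Agent.Results.MP_07a0c6_lc.UpColorDomination
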